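import Mathlib
import Pool.Agent.H29.MobInfDefs
import Pool.Agent.H29.MobInf2

set_option autoImplicit false

namespace Pool.Agent.Results.MP_903b9e_co.Value

open Pool.Agent.H29.Mob

theorem result : ∀ k : ℕ, 3 ≤ k → mobInf (lattice k) = (2 ^ 2 ^ (k - 1) : ℕ) := by
  intro k hk
  obtain ⟨m, rfl⟩ : ∃ m, k = m + 1 := ⟨k - 1, by omega⟩
  exact main m

end Pool.Agent.Results.MP_903b9e_co.Value
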